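import Pool.Agent.helper27.SY.Spec

/-!
# Project sy (MP_5628fe_nt), module ALM: almost all `n`
-/

set_option autoImplicit false

open Finset ArithmeticFunction

namespace Pool.Agent.SY

open Pool.Agent.SX Pool.Agent.helper85.BVP

theorem ALM_ev (c r : ℝ) (s : ℕ) (hc : 0 < c) (hr : 0 < r) :
    ∀ᶠ N : ℕ in Filter.atTop, c * Real.log N ^ s ≤ (N : ℝ) ^ r := by
  have h := (isLittleO_log_rpow_rpow_atTop (s : ℝ) hr).bound (show (0 : ℝ) < 1 / c by positivity)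
  have h2 := (tendsto_natCast_atTop_atTop (R := ℝ)).eventually h
  filter_upwards [h2, Filter.eventually_ge_atTop 1] with N hN h1
  have hN1 : (1 : ℝ) ≤ N := by exact_mod_cast h1
  have hl : 0 ≤ Real.log N := Real.log_nonneg hN1
  rw [Real.rpow_natCast, Real.norm_of_nonneg (pow_nonneg hl _),
    Real.norm_of_nonneg (Real.rpow_nonneg (by linarith) _)] at hN
  calc c * Real.log N ^ s ≤ c * (1 / c * (N : ℝ) ^ r) := mul_le_mul_of_nonneg_left hN hc.le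
    _ = (N : ℝ) ^ r := by field_simp

/-- the parameters -/
theorem ALM_par (l e : ℝ) (Y w a : ℝ) (hl : 10 ^ 6 ≤ l) (he : 0 < e) (hw : 1 ≤ w) (hY : 485 ≤ Y)
    (h1 : Y * w * e ≤ 1.7785 * l) (h2 : 1.7785 * l < (Y + 1) * w * e) (ha2 : a ≤ 120)
    (ha3 : 950 * (Y + 1) ≤ 10000 * a) :
    10.1 * l ≤ 60 * (a * w * e) ∧ a * w * e ≤ 0.4401 * l ∧ 1.4 * Y * w * e ≤ 2.49 * l ∧
    ∀ q : ℝ, 0 ≤ q → q ≤ l + 1 →
      (46701 * Y - 60000) / (17785 * Y) + 6 * q / (Y * w * e) ≤ 6 ∧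
      (46701 * Y - 60000) / (17785 * Y) + 3 * q / (Y * w * e) ≤ 5 := by
  have hwe : 0 < w * e := by positivity
  have hl0 : 0 < l := by linarith
  refine ⟨?_, ?_, ?_, ?_⟩
  · have : 950 * (Y + 1) * (w * e) ≤ 10000 * a * (w * e) := mul_le_mul_of_nonneg_right ha3 hwe.le
    nlinarith
  · have e1 : a * (w * e) ≤ 120 * (w * e) := mul_le_mul_of_nonneg_right ha2 hwe.le
    have e2 : 485 * (w * e) ≤ Y * (w * e) := mul_le_mul_of_nonneg_right hY hwe.le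
    nlinarith
  · nlinarith
  · intro q hq hql
    have hY0 : 0 < Y := by linarith
    have hd : 0 < Y * w * e := by positivity
    -- z
    have hz : q / (Y * w * e) ≤ (l + 1) * (Y + 1) / (1.7785 * l * Y) := by
      rw [div_le_div_iff₀ hd (by positivity)]
      have e1 : 1.7785 * l * Y ≤ (Y + 1) * w * e * Y := mul_le_mul_of_nonneg_right h2.le hY0.le
      calc q * (1.7785 * l * Y) ≤ (l + 1) * (1.7785 * l * Y) :=
            mul_le_mul_of_nonneg_right hql (by positivity)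
        _ ≤ (l + 1) * ((Y + 1) * w * e * Y) := mul_le_mul_of_nonneg_left e1 (by positivity)
        _ = (l + 1) * (Y + 1) * (Y * w * e) := by ring
    have hz0 : 0 ≤ q / (Y * w * e) := by positivity
    have h6 : (46701 * Y - 60000) / (17785 * Y) + 6 * ((l + 1) * (Y + 1) / (1.7785 * l * Y)) ≤ 6 := by
      have e1 : (46701 * Y - 60000) / (17785 * Y) + 6 * ((l + 1) * (Y + 1) / (1.7785 * l * Y)) =
          ((46701 * Y - 60000) * l + 60000 * (Y + 1) * (l + 1)) / (17785 * Y * l) := by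
        field_simp
        ring
      rw [e1, div_le_iff₀ (by positivity)]
      nlinarith
    have hb : (46701 * Y - 60000) / (17785 * Y) ≤ 2.63 := by
      rw [div_le_iff₀ (by positivity)]
      nlinarith
    have e6 : 6 * q / (Y * w * e) = 6 * (q / (Y * w * e)) := by ring
    have e3 : 3 * q / (Y * w * e) = 3 * (q / (Y * w * e)) := by ring
    rw [e6, e3]
    constructor <;> linarith

theorem ALM_log2 : 0.69 < Real.log 2 ∧ Real.log 2 < 0.7 := by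
  have h1 := Real.log_two_gt_d9
  have h2 := Real.log_two_lt_d9
  constructor <;> linarith

theorem ALM_a (N n h : ℕ) (hN : 1 ≤ N) (hn : n < 2 * N) (hh : 10.1 * Real.log N ≤
    60 * ((h : ℝ) * (Real.log 2 / 10))) (hl : 10 ^ 6 ≤ Real.log N) (hn1 : 1 ≤ n) :
    n ^ 10 < 2 ^ (6 * h) := by
  obtain ⟨h21, h22⟩ := ALM_log2
  have hNr : (1 : ℝ) ≤ N := by exact_mod_cast hN
  have hnr : (1 : ℝ) ≤ n := by exact_mod_cast hn1
  have hn2 : (n : ℝ) ≤ 2 * N := by exact_mod_cast hn.le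
  have hl2 : Real.log n ≤ Real.log 2 + Real.log N := by
    rw [← Real.log_mul (by norm_num) (by linarith)]
    exact Real.log_le_log (by linarith) hn2
  have : ((n : ℝ) ^ 10) < 2 ^ (6 * h) := by
    rw [← Real.log_lt_log_iff (by positivity) (by positivity), Real.log_pow, Real.log_pow]
    push_cast
    nlinarith
  exact_mod_cast this

theorem ALM_b (N B : ℕ) (hN : 1 ≤ N) (P : ℕ) (hP : 1 ≤ P) (hPB : P ^ 10 ≤ 2 ^ B)
    (hB : (B : ℝ) * (Real.log 2 / 10) ≤ 2.49 * Real.log N) : (P : ℝ) ≤ (N : ℝ) ^ (2.49 : ℝ) := by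
  have hNr : (0 : ℝ) < N := by exact_mod_cast hN
  have hPr : (0 : ℝ) < P := by exact_mod_cast hP
  have h1 : ((P : ℝ) ^ 10) ≤ 2 ^ B := by exact_mod_cast hPB
  have h2 : 10 * Real.log P ≤ B * Real.log 2 := by
    have := Real.log_le_log (by positivity) h1
    rw [Real.log_pow, Real.log_pow] at this
    push_cast at this
    exact this
  rw [← Real.log_le_log_iff hPr (by positivity), Real.log_rpow hNr]
  linarith

theorem ALM_c (N h : ℕ) (hN : 1 ≤ N) (hh : 10.1 * Real.log N ≤ 60 * ((h : ℝ) * (Real.log 2 / 10))) :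
    (N : ℝ) ^ (0.16 : ℝ) / 2 ≤ 2 ^ (h / 10) := by
  have hNr : (1 : ℝ) ≤ N := by exact_mod_cast hN
  have hl : 0 ≤ Real.log N := Real.log_nonneg hNr
  have h2 : 0 < Real.log 2 := Real.log_pos (by norm_num)
  rw [← Real.log_le_log_iff (by positivity) (by positivity), Real.log_div (by positivity) (by norm_num),
    Real.log_rpow (by linarith), Real.log_pow]
  have h3 : (h : ℝ) ≤ 10 * ((h / 10 : ℕ) : ℝ) + 9 := by
    have : h ≤ 10 * (h / 10) + 9 := by omega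
    exact_mod_cast this
  nlinarith

theorem ALM_d (N H : ℕ) (hN : 1 ≤ N) (hH : (H : ℝ) * (Real.log 2 / 10) ≤ 1.7785 * Real.log N) :
    (2 : ℝ) ^ (H / 10) ≤ (N : ℝ) ^ (1.7785 : ℝ) := by
  have hNr : (1 : ℝ) ≤ N := by exact_mod_cast hN
  have h2 : 0 < Real.log 2 := Real.log_pos (by norm_num)
  rw [← Real.log_le_log_iff (by positivity) (by positivity),
    Real.log_rpow (by linarith), Real.log_pow]
  have h3 : 10 * ((H / 10 : ℕ) : ℝ) ≤ (H : ℝ) := by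
    have : 10 * (H / 10) ≤ H := by omega
    exact_mod_cast this
  nlinarith

theorem ALM_Pr (h : ℕ) : ∀ p ∈ Pr h, p.Prime ∧ 7 ≤ p := by
  intro p hp
  unfold Pr at hp
  rw [Finset.mem_filter] at hp
  exact ⟨hp.2.1, hp.2.2.1⟩

theorem ALM_one (h2 : VLB_stmt) (h3 : CNT_stmt) (h4 : SQ_stmt) (h5 : TSB_stmt)
    (N Y o a : ℕ) (C : Finset ℕ → ℝ) (hN : 1 ≤ N) (hl : 10 ^ 6 ≤ Real.log N) (ho : 15 ≤ o)
    (hY : 485 ≤ Y) (h1 : (Y : ℝ) * 2 ^ o * (Real.log 2 / 10) ≤ 1.7785 * Real.log N)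
    (h1' : 1.7785 * Real.log N < ((Y : ℝ) + 1) * 2 ^ o * (Real.log 2 / 10))
    (ha1 : 60 ≤ a) (ha2 : a ≤ 120) (ha3 : 950 * (Y + 1) ≤ 10000 * a)
    (hC : CW (a * 2 ^ o) (Y * 2 ^ o) (7 * Y / 5 * 2 ^ o)
      ((46701 * Y - 60000) / (17785 * Y) : ℝ) (V (Pr (a * 2 ^ o)) / 200) C)
    (hE : 50000 * Real.log N ^ 2 ≤ (N : ℝ) ^ (0.16 : ℝ))
    (n y : ℕ) (hn1 : N ≤ n) (hn2 : n < 2 * N) (hy1 : n ^ 3 / 30 ≤ y)
    (hy2 : y < n ^ 3 / 30 + N ^ 2 / 300) :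
    0.0027 * ((N : ℝ) ^ 2 / Real.log N ^ 2) + RR C (Pr (Y * 2 ^ o)) (N ^ 2 / 11) y ≤
      ((T 5 n).card : ℝ) := by
  obtain ⟨h21, h22⟩ := ALM_log2
  set l : ℝ := Real.log N with hldef
  have hNr : (1 : ℝ) ≤ N := by exact_mod_cast hN
  have hN0 : (0 : ℝ) < N := by linarith
  have hl0 : 0 < l := by linarith
  have hlN : l ≤ N := (Real.log_le_sub_one_of_pos hN0).trans (by linarith)
  have hN6 : (10 : ℝ) ^ 6 ≤ N := hl.trans hlN
  have hYr : (485 : ℝ) ≤ Y := by exact_mod_cast hY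
  have hw1 : (1 : ℝ) ≤ 2 ^ o := one_le_pow₀ (by norm_num)
  have ha2r : (a : ℝ) ≤ 120 := by exact_mod_cast ha2
  have ha3r : 950 * ((Y : ℝ) + 1) ≤ 10000 * a := by exact_mod_cast ha3
  obtain ⟨p1, p2, -, p4⟩ := ALM_par l (Real.log 2 / 10) Y (2 ^ o) a hl (by linarith) hw1 hYr h1 h1'
    ha2r ha3r
  have hhc : (((a * 2 ^ o : ℕ) : ℕ) : ℝ) = (a : ℝ) * 2 ^ o := by push_cast; ring
  have hHc : (((Y * 2 ^ o : ℕ) : ℕ) : ℝ) = (Y : ℝ) * 2 ^ o := by push_cast; ring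
  have h2o : 2 ^ 15 ≤ 2 ^ o := Nat.pow_le_pow_right (by norm_num) ho
  have hhH : a * 2 ^ o ≤ Y * 2 ^ o := Nat.mul_le_mul_right _ (by omega)
  have hh60 : 60 * 2 ^ 15 ≤ a * 2 ^ o := Nat.mul_le_mul ha1 h2o
  have hhn : 7680 ≤ a * 2 ^ o := by omega
  have hH1 : 1 ≤ Y * 2 ^ o := by omega
  -- the log of n + 1
  have hn1r : (N : ℝ) ≤ n := by exact_mod_cast hn1
  have hn2r : (n : ℝ) + 1 ≤ 2 * N := by exact_mod_cast hn2
  have hq0 : 0 ≤ Real.log ((n : ℝ) + 1) := Real.log_nonneg (by linarith)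
  have hq1 : Real.log ((n : ℝ) + 1) ≤ l + 1 := by
    have : Real.log ((n : ℝ) + 1) ≤ Real.log (2 * N) := Real.log_le_log (by linarith) hn2r
    rw [Real.log_mul (by norm_num) hN0.ne'] at this
    linarith
  obtain ⟨p5, p6⟩ := p4 _ hq0 hq1
  -- natural number inequalities
  have hA := Nat.div_add_mod (n ^ 3) 30
  have hA' := Nat.mod_lt (n ^ 3) (show 0 < 30 by norm_num)
  have hNn : N ^ 2 ≤ n ^ 2 := Nat.pow_le_pow_left hn1 2
  have hexp : (n + 1) ^ 3 = n ^ 3 + 3 * n ^ 2 + 3 * n + 1 := by ring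
  have hn0 : 1 ≤ n := hN.trans hn1
  have hn22 : 2 ≤ n := by
    have : (2 : ℝ) ≤ n := by linarith
    exact_mod_cast this
  have c1 : n ^ 3 < 30 * (y + 1) + 1 := by omega
  have c2 : 30 * (y + N ^ 2 / 11) + 7 < (n + 1) ^ 3 := by
    rw [hexp]
    omega
  have c3 : n ^ 10 < 2 ^ (6 * (a * 2 ^ o)) := by
    apply ALM_a N n (a * 2 ^ o) hN hn2 _ hl hn0
    rw [hhc]
    linarith
  have hTS := h5 n 5 (N ^ 2 / 11) y (a * 2 ^ o) (Y * 2 ^ o)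
    ((46701 * Y - 60000) / (17785 * Y) : ℝ) hn22 hH1 c1 c2 c3
    (by
      rw [hHc]
      push_cast
      linarith)
    (by
      rw [hHc]
      linarith)
  have hb0 : (0 : ℝ) < (46701 * Y - 60000) / (17785 * Y) := by
    apply div_pos
    · linarith
    · positivity
  have hCN := h3 C (N ^ 2 / 11) y (a * 2 ^ o) (Y * 2 ^ o) (7 * Y / 5 * 2 ^ o)
    ((46701 * Y - 60000) / (17785 * Y) : ℝ) (V (Pr (a * 2 ^ o)) / 200) hhH hH1 hb0 hC
  have hSQ := h4 (N ^ 2 / 11) y (a * 2 ^ o) (Y * 2 ^ o) (by omega) hhH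
  have hVL := h2 (a * 2 ^ o) hhn
  have hTSr : ((Gk (N ^ 2 / 11) y (a * 2 ^ o) (Y * 2 ^ o)
    ((46701 * Y - 60000) / (17785 * Y) : ℝ)).card : ℝ) ≤ ((T 5 n).card : ℝ) := by
    exact_mod_cast hTS
  -- the size of K
  have hK1 : ((N ^ 2 / 11 : ℕ) : ℝ) ≤ (N : ℝ) ^ 2 / 11 := by
    rw [le_div_iff₀ (by norm_num)]
    have : N ^ 2 / 11 * 11 ≤ N ^ 2 := Nat.div_mul_le_self _ _
    exact_mod_cast this
  have hK2 : (N : ℝ) ^ 2 / 11 - 1 ≤ ((N ^ 2 / 11 : ℕ) : ℝ) := by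
    have : N ^ 2 ≤ 11 * (N ^ 2 / 11) + 11 := by omega
    have h' : ((N : ℝ) ^ 2) ≤ 11 * ((N ^ 2 / 11 : ℕ) : ℝ) + 11 := by exact_mod_cast this
    linarith
  -- the main term
  have hh : (((a * 2 ^ o : ℕ) : ℕ) : ℝ) ≤ 6.38 * l := by
    rw [hhc]
    have e1 : (a : ℝ) * 2 ^ o * 0.069 ≤ (a : ℝ) * 2 ^ o * (Real.log 2 / 10) :=
      mul_le_mul_of_nonneg_left (by linarith) (by positivity)
    have e2 : (a : ℝ) * 2 ^ o * (Real.log 2 / 10) ≤ 0.4401 * l := p2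
    linarith
  have hh0 : (0 : ℝ) ≤ (((a * 2 ^ o : ℕ) : ℕ) : ℝ) := Nat.cast_nonneg _
  have hVp : 0 ≤ V (Pr (a * 2 ^ o)) := by
    by_contra hneg
    push Not at hneg
    have : V (Pr (a * 2 ^ o)) * ((a * 2 ^ o : ℕ) : ℝ) ^ 2 ≤ 0 :=
      mul_nonpos_of_nonpos_of_nonneg hneg.le (by positivity)
    linarith
  have hV : 280 ≤ V (Pr (a * 2 ^ o)) * (40.71 * l ^ 2) := by
    refine hVL.trans (mul_le_mul_of_nonneg_left ?_ hVp)
    calc (((a * 2 ^ o : ℕ) : ℕ) : ℝ) ^ 2 ≤ (6.38 * l) ^ 2 := pow_le_pow_left₀ hh0 hh 2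
      _ ≤ 40.71 * l ^ 2 := by nlinarith
  have hl2 : 0 < l ^ 2 := by positivity
  have hV2 : 6.87 / l ^ 2 ≤ V (Pr (a * 2 ^ o)) := by
    rw [div_le_iff₀ hl2]
    nlinarith
  have hN2 : (10 : ℝ) ^ 12 ≤ (N : ℝ) ^ 2 := by nlinarith
  have hmain : 0.0028 * ((N : ℝ) ^ 2 / l ^ 2) ≤
      ((N ^ 2 / 11 : ℕ) : ℝ) * (V (Pr (a * 2 ^ o)) / 200) := by
    calc 0.0028 * ((N : ℝ) ^ 2 / l ^ 2) = (0.0028 * (N : ℝ) ^ 2) / l ^ 2 := by ring
      _ ≤ (((N : ℝ) ^ 2 / 11 - 1) * (6.87 / 200)) / l ^ 2 := by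
          apply div_le_div_of_nonneg_right _ hl2.le
          linarith
      _ = ((N : ℝ) ^ 2 / 11 - 1) * ((6.87 / l ^ 2) / 200) := by ring
      _ ≤ ((N : ℝ) ^ 2 / 11 - 1) * (V (Pr (a * 2 ^ o)) / 200) := by
          apply mul_le_mul_of_nonneg_left _ (by linarith)
          linarith
      _ ≤ _ := by
          apply mul_le_mul_of_nonneg_right hK2
          linarith
  -- the squares
  have hNp : 0 < (N : ℝ) ^ (0.16 : ℝ) := by positivity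
  have hinv : 1 / (N : ℝ) ^ (0.16 : ℝ) ≤ 1 / (50000 * l ^ 2) :=
    one_div_le_one_div_of_le (by positivity) hE
  have hs1 : 4 * ((N ^ 2 / 11 : ℕ) : ℝ) / 2 ^ (a * 2 ^ o / 10) ≤ 0.00002 * ((N : ℝ) ^ 2 / l ^ 2) := by
    have hc := ALM_c N (a * 2 ^ o) hN (by rw [hhc]; linarith)
    calc 4 * ((N ^ 2 / 11 : ℕ) : ℝ) / 2 ^ (a * 2 ^ o / 10)
        ≤ 4 * ((N : ℝ) ^ 2 / 11) / ((N : ℝ) ^ (0.16 : ℝ) / 2) := by
          apply div_le_div₀ (by positivity) _ (by positivity) hc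
          linarith
      _ = (8 / 11) * (N : ℝ) ^ 2 * (1 / (N : ℝ) ^ (0.16 : ℝ)) := by field_simp; norm_num
      _ ≤ (8 / 11) * (N : ℝ) ^ 2 * (1 / (50000 * l ^ 2)) :=
          mul_le_mul_of_nonneg_left hinv (by positivity)
      _ = (8 / 550000) * ((N : ℝ) ^ 2 / l ^ 2) := by field_simp; norm_num
      _ ≤ 0.00002 * ((N : ℝ) ^ 2 / l ^ 2) := by
          apply mul_le_mul_of_nonneg_right (by norm_num) (by positivity)
  have hs2 : 4 * (2 : ℝ) ^ (Y * 2 ^ o / 10) ≤ 0.00008 * ((N : ℝ) ^ 2 / l ^ 2) := by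
    have hd := ALM_d N (Y * 2 ^ o) hN (by rw [hHc]; exact h1)
    have e1 : (N : ℝ) ^ (1.7785 : ℝ) ≤ (N : ℝ) ^ 2 * (1 / (N : ℝ) ^ (0.16 : ℝ)) := by
      have e2 : (N : ℝ) ^ 2 * (1 / (N : ℝ) ^ (0.16 : ℝ)) = (N : ℝ) ^ (1.84 : ℝ) := by
        rw [mul_one_div, div_eq_iff hNp.ne', ← Real.rpow_natCast, ← Real.rpow_add hN0]
        congr 1
        norm_num
      rw [e2]
      exact Real.rpow_le_rpow_of_exponent_le hNr (by norm_num)
    calc 4 * (2 : ℝ) ^ (Y * 2 ^ o / 10) ≤ 4 * ((N : ℝ) ^ 2 * (1 / (N : ℝ) ^ (0.16 : ℝ))) := by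
          linarith
      _ ≤ 4 * ((N : ℝ) ^ 2 * (1 / (50000 * l ^ 2))) := by
          apply mul_le_mul_of_nonneg_left _ (by norm_num)
          exact mul_le_mul_of_nonneg_left hinv (by positivity)
      _ = 0.00008 * ((N : ℝ) ^ 2 / l ^ 2) := by field_simp; norm_num
  linarith

/-- the combinatorial part: many large values -/
theorem ALM_cnt (f : ℕ → ℝ) (N L : ℕ) (S : Finset ℕ) (q Z : ℝ) (hq : 0 ≤ q)
    (hS : ∀ n ∈ S, N ≤ n ∧ n < 2 * N) (hL : N ^ 3 ≤ 2 * L)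
    (hf : ∀ n ∈ S, ∀ y, n ^ 3 / 30 ≤ y → y < n ^ 3 / 30 + N ^ 2 / 300 → f y ≤ -q)
    (hZ : ∑ y ∈ range (2 * L), f y ^ 2 ≤ Z) :
    (S.card : ℝ) * ((N ^ 2 / 300 : ℕ) : ℝ) * q ^ 2 ≤ Z := by
  have hstep : ∀ n : ℕ, N ≤ n → n ^ 3 / 30 + N ^ 2 / 300 ≤ (n + 1) ^ 3 / 30 := by
    intro n hn
    have hNn : N ^ 2 ≤ n ^ 2 := Nat.pow_le_pow_left hn 2
    have hexp : (n + 1) ^ 3 = n ^ 3 + 3 * n ^ 2 + 3 * n + 1 := by ring
    rw [hexp]
    omega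
  have hdisj : (S : Set ℕ).PairwiseDisjoint
      (fun n => Ico (n ^ 3 / 30) (n ^ 3 / 30 + N ^ 2 / 300)) := by
    have key : ∀ n ∈ S, ∀ m ∈ S, n < m → Disjoint
        (Ico (n ^ 3 / 30) (n ^ 3 / 30 + N ^ 2 / 300)) (Ico (m ^ 3 / 30) (m ^ 3 / 30 + N ^ 2 / 300)) := by
      intro n hn m hm hnm
      rw [Finset.disjoint_left]
      intro y hy hy'
      rw [Finset.mem_Ico] at hy hy'
      have h1 := hstep n (hS n hn).1
      have h2 : (n + 1) ^ 3 / 30 ≤ m ^ 3 / 30 := Nat.div_le_div_right (Nat.pow_le_pow_left hnm 3)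
      omega
    intro n hn m hm hnm
    rcases lt_or_gt_of_ne hnm with h | h
    · exact key n hn m hm h
    · exact (key m hm n hn h).symm
  have hsub : S.biUnion (fun n => Ico (n ^ 3 / 30) (n ^ 3 / 30 + N ^ 2 / 300)) ⊆ range (2 * L) := by
    intro y hy
    rw [Finset.mem_biUnion] at hy
    obtain ⟨n, hn, hy⟩ := hy
    rw [Finset.mem_Ico] at hy
    rw [Finset.mem_range]
    obtain ⟨hn1, hn2⟩ := hS n hn
    have h1 : n ^ 3 ≤ (2 * N) ^ 3 := Nat.pow_le_pow_left hn2.le 3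
    have h2 : (2 * N) ^ 3 = 8 * N ^ 3 := by ring
    have h3 : N ^ 2 ≤ N ^ 3 := Nat.pow_le_pow_right (by omega) (by norm_num)
    omega
  have h1 : (S.card : ℝ) * ((N ^ 2 / 300 : ℕ) : ℝ) * q ^ 2 ≤
      ∑ n ∈ S, ∑ y ∈ Ico (n ^ 3 / 30) (n ^ 3 / 30 + N ^ 2 / 300), f y ^ 2 := by
    have h2 : ∀ n ∈ S, ((N ^ 2 / 300 : ℕ) : ℝ) * q ^ 2 ≤
        ∑ y ∈ Ico (n ^ 3 / 30) (n ^ 3 / 30 + N ^ 2 / 300), f y ^ 2 := by
      intro n hn
      have h3 : ∀ y ∈ Ico (n ^ 3 / 30) (n ^ 3 / 30 + N ^ 2 / 300), q ^ 2 ≤ f y ^ 2 := by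
        intro y hy
        rw [Finset.mem_Ico] at hy
        have h4 := hf n hn y hy.1 hy.2
        nlinarith
      have h5 := Finset.sum_le_sum h3
      rw [Finset.sum_const, Nat.card_Ico, nsmul_eq_mul] at h5
      have h6 : n ^ 3 / 30 + N ^ 2 / 300 - n ^ 3 / 30 = N ^ 2 / 300 := by omega
      rw [h6] at h5
      exact h5
    have h7 := Finset.sum_le_sum h2
    rw [Finset.sum_const, nsmul_eq_mul] at h7
    rw [mul_assoc]
    exact h7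
  rw [← Finset.sum_biUnion hdisj] at h1
  refine h1.trans (le_trans ?_ hZ)
  exact Finset.sum_le_sum_of_subset_of_nonneg hsub (fun y _ _ => sq_nonneg _)

theorem ALM (h1 : SV0_stmt) (h2 : VLB_stmt) (h0 : PAR_stmt) (h3 : CNT_stmt) (h4 : SQ_stmt)
    (h5 : TSB_stmt) (h6 : TAU_stmt) (h7 : MSQ_stmt) : ALM_stmt := by
  classical
  obtain ⟨h21, h22⟩ := ALM_log2
  obtain ⟨A, hA1, hA⟩ := h6 (0.0005 : ℝ) (by norm_num)
  have hev : ∀ᶠ N : ℕ in Filter.atTop, 50000 * Real.log N ^ 2 ≤ (N : ℝ) ^ (0.16 : ℝ) ∧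
      (3 * 10 ^ 10 * A ^ 2) * Real.log N ^ 8 ≤ (N : ℝ) ^ (0.0025 : ℝ) ∧ 10 ^ 6 ≤ Real.log N ∧ 1 ≤ N := by
    filter_upwards [ALM_ev 50000 0.16 2 (by norm_num) (by norm_num),
      ALM_ev (3 * 10 ^ 10 * A ^ 2) 0.0025 8 (by positivity) (by norm_num),
      (Real.tendsto_log_atTop.comp (tendsto_natCast_atTop_atTop (R := ℝ))).eventually_ge_atTop (10 ^ 6),
      Filter.eventually_ge_atTop 1] with N a1 a2 a3 a4
    exact ⟨a1, a2, a3, a4⟩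
  obtain ⟨N₀, hN₀⟩ := Filter.eventually_atTop.mp hev
  refine ⟨N₀, ?_⟩
  intro N hNN
  obtain ⟨hE1, hE2, hl, hN⟩ := hN₀ N hNN
  set l : ℝ := Real.log N with hldef
  have hNr : (1 : ℝ) ≤ N := by exact_mod_cast hN
  have hN0 : (0 : ℝ) < N := by linarith
  have hl0 : 0 < l := by linarith
  have hlN : l ≤ N := (Real.log_le_sub_one_of_pos hN0).trans (by linarith)
  have hN6 : (10 : ℝ) ^ 6 ≤ N := hl.trans hlN
  have he0 : 0 < Real.log 2 / 10 := by linarith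
  -- parameters
  obtain ⟨o, Y, ho, hY, hY2, hx1, hx2⟩ := h0 (1.7785 * l / (Real.log 2 / 10)) (by
    rw [le_div_iff₀ he0]
    nlinarith)
  rw [le_div_iff₀ he0] at hx1
  rw [div_lt_iff₀ he0] at hx2
  obtain ⟨a, C, ha1, ha2, ha3, hC⟩ := h1 o Y ho hY hY2
  have hYr : (485 : ℝ) ≤ Y := by exact_mod_cast hY
  have hw1 : (1 : ℝ) ≤ 2 ^ o := one_le_pow₀ (by norm_num)
  have ha2r : (a : ℝ) ≤ 120 := by exact_mod_cast ha2
  have ha3r : 950 * ((Y : ℝ) + 1) ≤ 10000 * a := by exact_mod_cast ha3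
  obtain ⟨-, -, p3, -⟩ := ALM_par l (Real.log 2 / 10) Y (2 ^ o) a hl (by linarith) hw1 hYr hx1 hx2
    ha2r ha3r
  -- the large sieve
  set D : ℕ := ⌊(N : ℝ) ^ (2.49 : ℝ)⌋₊ with hD
  set L : ℕ := ⌈(N : ℝ) ^ (4.98 : ℝ)⌉₊ with hL
  have hD1 : 1 ≤ D := by
    apply Nat.le_floor
    rw [Nat.cast_one]
    exact Real.one_le_rpow hNr (by norm_num)
  have hDr : (D : ℝ) ≤ (N : ℝ) ^ (2.49 : ℝ) := Nat.floor_le (by positivity)
  have hLr : (N : ℝ) ^ (4.98 : ℝ) ≤ L := Nat.le_ceil _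
  have hLr2 : (L : ℝ) ≤ 2 * (N : ℝ) ^ (4.98 : ℝ) := by
    have e1 : (L : ℝ) < (N : ℝ) ^ (4.98 : ℝ) + 1 := Nat.ceil_lt_add_one (by positivity)
    have e2 : (1 : ℝ) ≤ (N : ℝ) ^ (4.98 : ℝ) := Real.one_le_rpow hNr (by norm_num)
    linarith
  have hDL : D ^ 2 ≤ L := by
    have : ((D : ℝ)) ^ 2 ≤ L := by
      refine le_trans ?_ hLr
      calc (D : ℝ) ^ 2 ≤ ((N : ℝ) ^ (2.49 : ℝ)) ^ 2 := pow_le_pow_left₀ (Nat.cast_nonneg _) hDr 2
        _ = (N : ℝ) ^ (4.98 : ℝ) := by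
            rw [← Real.rpow_natCast, ← Real.rpow_mul hN0.le]
            congr 1
            norm_num
    exact_mod_cast this
  have hBr : (((7 * Y / 5 * 2 ^ o : ℕ) : ℕ) : ℝ) * (Real.log 2 / 10) ≤ 2.49 * l := by
    have e1 : 5 * (7 * Y / 5) ≤ 7 * Y := Nat.mul_div_le _ _
    have e2 : 5 * ((7 * Y / 5 : ℕ) : ℝ) ≤ 7 * Y := by exact_mod_cast e1
    have e3 : (((7 * Y / 5 * 2 ^ o : ℕ) : ℕ) : ℝ) = ((7 * Y / 5 : ℕ) : ℝ) * 2 ^ o := by push_cast; ring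
    rw [e3]
    have hwe : 0 < (2 : ℝ) ^ o * (Real.log 2 / 10) := by positivity
    have e4 : 5 * ((7 * Y / 5 : ℕ) : ℝ) * ((2 : ℝ) ^ o * (Real.log 2 / 10)) ≤
        7 * Y * ((2 : ℝ) ^ o * (Real.log 2 / 10)) := mul_le_mul_of_nonneg_right e2 hwe.le
    linarith
  have hFprop : ∀ F, C F ≠ 0 → F ⊆ Pr (Y * 2 ^ o) ∧ ((∏ p ∈ F, p : ℕ) : ℝ) ≤ (N : ℝ) ^ (2.49 : ℝ) := by
    intro F hF
    obtain ⟨b1, b2⟩ := hC.2.1 F hF
    refine ⟨b1, ?_⟩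
    apply ALM_b N _ hN _ _ b2 hBr
    apply Nat.one_le_iff_ne_zero.mpr
    rw [Finset.prod_ne_zero_iff]
    intro p hp
    exact (ALM_Pr _ p (b1 hp)).1.ne_zero
  set t : ℝ := A * (N : ℝ) ^ (0.00125 : ℝ) with ht
  have ht0 : 0 ≤ t := by positivity
  have hMS := h7 C (Pr (Y * 2 ^ o)) D (N ^ 2 / 11) L t hD1 ht0 hDL (ALM_Pr _) hC.1
    (by
      intro F hF
      obtain ⟨b1, b2⟩ := hFprop F hF
      exact ⟨b1, Nat.le_floor b2⟩)
    (by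
      intro F hF
      obtain ⟨b1, b2⟩ := hFprop F hF
      have b3 := hA F (fun p hp => (ALM_Pr _ p (b1 hp)).1)
      have b4 : ((∏ p ∈ F, p : ℕ) : ℝ) = ∏ p ∈ F, (p : ℝ) := by push_cast; rfl
      rw [b4] at b2
      refine b3.trans ?_
      rw [ht]
      apply mul_le_mul_of_nonneg_left _ (by linarith)
      have b5 : 0 ≤ ∏ p ∈ F, (p : ℝ) := Finset.prod_nonneg fun p _ => Nat.cast_nonneg _
      calc (∏ p ∈ F, (p : ℝ)) ^ (0.0005 : ℝ) ≤ ((N : ℝ) ^ (2.49 : ℝ)) ^ (0.0005 : ℝ) :=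
            Real.rpow_le_rpow b5 b2 (by norm_num)
        _ = (N : ℝ) ^ (2.49 * 0.0005 : ℝ) := by rw [← Real.rpow_mul hN0.le]
        _ ≤ (N : ℝ) ^ (0.00125 : ℝ) := Real.rpow_le_rpow_of_exponent_le hNr (by norm_num))
  -- the upper bound
  have hlogD : 1 + Real.log D ≤ 3 * l := by
    have hD0 : (0 : ℝ) < D := by exact_mod_cast hD1
    have : Real.log D ≤ 2.49 * l := by
      have := Real.log_le_log hD0 hDr
      rwa [Real.log_rpow hN0] at this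
    linarith
  have hlogD0 : 0 ≤ Real.log D := Real.log_nonneg (by exact_mod_cast hD1)
  have hK1 : ((N ^ 2 / 11 : ℕ) : ℝ) ≤ (N : ℝ) ^ 2 / 11 := by
    rw [le_div_iff₀ (by norm_num)]
    have : N ^ 2 / 11 * 11 ≤ N ^ 2 := Nat.div_mul_le_self _ _
    exact_mod_cast this
  have hZ : 5 * (L : ℝ) * ((N ^ 2 / 11 : ℕ) : ℝ) * t ^ 2 * (1 + Real.log D) ^ 4 ≤
      81 * A ^ 2 * l ^ 4 * (N : ℝ) ^ (6.9825 : ℝ) := by
    have e1 : (1 + Real.log D) ^ 4 ≤ (3 * l) ^ 4 := pow_le_pow_left₀ (by linarith) hlogD 4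
    have e2 : t ^ 2 = A ^ 2 * (N : ℝ) ^ (0.0025 : ℝ) := by
      rw [ht, mul_pow, ← Real.rpow_natCast ((N : ℝ) ^ (0.00125 : ℝ)), ← Real.rpow_mul hN0.le]
      congr 2
      norm_num
    have e3 : (N : ℝ) ^ (4.98 : ℝ) * (N : ℝ) ^ 2 * (N : ℝ) ^ (0.0025 : ℝ) = (N : ℝ) ^ (6.9825 : ℝ) := by
      rw [← Real.rpow_natCast (N : ℝ) 2, ← Real.rpow_add hN0, ← Real.rpow_add hN0]
      congr 1
      norm_num
    calc 5 * (L : ℝ) * ((N ^ 2 / 11 : ℕ) : ℝ) * t ^ 2 * (1 + Real.log D) ^ 4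
        ≤ 5 * (2 * (N : ℝ) ^ (4.98 : ℝ)) * ((N : ℝ) ^ 2 / 11) * t ^ 2 * (3 * l) ^ 4 := by
          apply mul_le_mul _ e1 (by positivity) (by positivity)
          apply mul_le_mul_of_nonneg_right _ (by positivity)
          apply mul_le_mul _ hK1 (by positivity) (by positivity)
          linarith
      _ = (10 / 11) * (81 * A ^ 2 * l ^ 4 *
            ((N : ℝ) ^ (4.98 : ℝ) * (N : ℝ) ^ 2 * (N : ℝ) ^ (0.0025 : ℝ))) := by
          rw [e2]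
          ring
      _ = (10 / 11) * (81 * A ^ 2 * l ^ 4 * (N : ℝ) ^ (6.9825 : ℝ)) := by rw [e3]
      _ ≤ 1 * (81 * A ^ 2 * l ^ 4 * (N : ℝ) ^ (6.9825 : ℝ)) := by
          apply mul_le_mul_of_nonneg_right (by norm_num) (by positivity)
      _ = _ := one_mul _
  -- the exceptional set
  set S := (Ico N (2 * N)).filter fun n =>
    ((T 5 n).card : ℝ) < 1 / 10000 * (n : ℝ) ^ 2 / Real.log n ^ 2 with hS
  have hN3L : N ^ 3 ≤ 2 * L := by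
    have : ((N : ℝ)) ^ 3 ≤ 2 * L := by
      have e1 : (N : ℝ) ^ 3 ≤ (N : ℝ) ^ (4.98 : ℝ) := by
        rw [← Real.rpow_natCast (N : ℝ) 3]
        exact Real.rpow_le_rpow_of_exponent_le hNr (by norm_num)
      have e2 : (0 : ℝ) ≤ L := Nat.cast_nonneg _
      linarith
    exact_mod_cast this
  have hNl : 0 < (N : ℝ) ^ 2 / l ^ 2 := by positivity
  have hcount := ALM_cnt (fun y => RR C (Pr (Y * 2 ^ o)) (N ^ 2 / 11) y) N L S
    (0.001 * ((N : ℝ) ^ 2 / l ^ 2)) _ (by positivity)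
    (by
      intro n hn
      rw [hS, Finset.mem_filter, Finset.mem_Ico] at hn
      exact hn.1) hN3L
    (by
      intro n hn y hy1 hy2
      rw [hS, Finset.mem_filter, Finset.mem_Ico] at hn
      obtain ⟨⟨hn1, hn2⟩, hn3⟩ := hn
      have k1 := ALM_one h2 h3 h4 h5 N Y o a C hN hl ho hY hx1 hx2 ha1 ha2 ha3 hC hE1 n y hn1 hn2
        hy1 hy2
      have hn1r : (N : ℝ) ≤ n := by exact_mod_cast hn1
      have hn2r : (n : ℝ) ≤ 2 * N := by exact_mod_cast hn2.le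
      have hln : l ≤ Real.log n := Real.log_le_log hN0 hn1r
      have k2 : 1 / 10000 * (n : ℝ) ^ 2 / Real.log n ^ 2 ≤ 0.0004 * ((N : ℝ) ^ 2 / l ^ 2) := by
        calc 1 / 10000 * (n : ℝ) ^ 2 / Real.log n ^ 2 ≤ 1 / 10000 * (2 * (N : ℝ)) ^ 2 / l ^ 2 := by
              apply div_le_div₀ (by positivity) _ (by positivity)
                (pow_le_pow_left₀ hl0.le hln 2)
              apply mul_le_mul_of_nonneg_left _ (by norm_num)
              exact pow_le_pow_left₀ (by linarith) hn2r 2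
          _ = 0.0004 * ((N : ℝ) ^ 2 / l ^ 2) := by ring
      rw [← hldef] at k1
      linarith) hMS
  -- conclusion
  have hq300 : (N : ℝ) ^ 2 / 301 ≤ ((N ^ 2 / 300 : ℕ) : ℝ) := by
    have e1 : N ^ 2 ≤ 300 * (N ^ 2 / 300) + 300 := by omega
    have e2 : ((N : ℝ) ^ 2) ≤ 300 * ((N ^ 2 / 300 : ℕ) : ℝ) + 300 := by exact_mod_cast e1
    have e3 : (10 : ℝ) ^ 12 ≤ (N : ℝ) ^ 2 := by nlinarith
    linarith
  have hfin : (S.card : ℝ) * ((N : ℝ) ^ 6 / (301 * 10 ^ 6 * l ^ 4)) ≤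
      81 * A ^ 2 * l ^ 4 * (N : ℝ) ^ (6.9825 : ℝ) := by
    calc (S.card : ℝ) * ((N : ℝ) ^ 6 / (301 * 10 ^ 6 * l ^ 4))
        = (S.card : ℝ) * ((N : ℝ) ^ 2 / 301) * (0.001 * ((N : ℝ) ^ 2 / l ^ 2)) ^ 2 := by
          field_simp
          ring
      _ ≤ (S.card : ℝ) * ((N ^ 2 / 300 : ℕ) : ℝ) * (0.001 * ((N : ℝ) ^ 2 / l ^ 2)) ^ 2 := by
          apply mul_le_mul_of_nonneg_right _ (by positivity)
          exact mul_le_mul_of_nonneg_left hq300 (Nat.cast_nonneg _)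
      _ ≤ _ := hcount.trans hZ
  have e6 : (N : ℝ) ^ (6.9825 : ℝ) = (N : ℝ) ^ 6 * (N : ℝ) ^ (0.9825 : ℝ) := by
    rw [← Real.rpow_natCast (N : ℝ) 6, ← Real.rpow_add hN0]
    congr 1
    norm_num
  have e7 : (N : ℝ) ^ (0.985 : ℝ) = (N : ℝ) ^ (0.0025 : ℝ) * (N : ℝ) ^ (0.9825 : ℝ) := by
    rw [← Real.rpow_add hN0]
    congr 1
    norm_num
  have h9 : (S.card : ℝ) ≤ 81 * A ^ 2 * l ^ 4 * (301 * 10 ^ 6 * l ^ 4) * (N : ℝ) ^ (0.9825 : ℝ) := by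
    have hpos : 0 < (N : ℝ) ^ 6 / (301 * 10 ^ 6 * l ^ 4) := by positivity
    rw [← mul_le_mul_iff_left₀ hpos]
    refine hfin.trans (le_of_eq ?_)
    rw [e6]
    field_simp
  refine h9.trans ?_
  rw [e7]
  apply mul_le_mul_of_nonneg_right _ (by positivity)
  refine le_trans ?_ hE2
  have h10 : 0 ≤ A ^ 2 * l ^ 8 := by positivity
  nlinarith

end Pool.Agent.SY
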